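import Pool.Agent.helper79.HT.Defs

/-!
Ellis theory for Boolean-valued ultrafilters (module A for MP_e6cd9b_lc).
-/

set_option autoImplicit false

namespace Pool.Agent.helper60.HT

open Pool.Agent.helper79.HT

universe u v w z

section basics

variable {S : Type v} {B : Type u} [CompleteBooleanAlgebra B]

theorem val_mono (p : BU S B) {A A' : S → B} (h : ∀ s, A s ≤ A' s) : p.val A ≤ p.val A' := by
  have h1 : (fun s => A s ⊓ A' s) = A := by
    funext s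
    exact inf_eq_left.2 (h s)
  have h2 := p.inf A A'
  rw [h1] at h2
  rw [h2]
  exact inf_le_right

theorem val_sup (p : BU S B) (A A' : S → B) :
    p.val (fun s => A s ⊔ A' s) = p.val A ⊔ p.val A' := by
  have h1 : (fun s => A s ⊔ A' s) = fun s => (((A s)ᶜ ⊓ (A' s)ᶜ))ᶜ := by
    funext s
    rw [compl_inf, compl_compl, compl_compl]
  rw [h1, p.compl, p.inf, p.compl, p.compl, compl_inf, compl_compl, compl_compl]

/-- two `B`-valued ultrafilters are equal if every large set of one is large for the other -/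
theorem eq_of_top {p q : BU S B} (h : ∀ A, q.val A = ⊤ → p.val A = ⊤) : p = q := by
  apply BU.ext
  funext A
  have h1 : q.val (fun s => ((A s)ᶜ ⊔ q.val A) ⊓ (A s ⊔ (q.val A)ᶜ)) = ⊤ := by
    rw [q.inf (fun s => (A s)ᶜ ⊔ q.val A) (fun s => A s ⊔ (q.val A)ᶜ),
      val_sup q (fun s => (A s)ᶜ) (fun _ => q.val A), val_sup q A (fun _ => (q.val A)ᶜ),
      q.const, q.const, q.compl, compl_sup_eq_top, sup_compl_eq_top, inf_top_eq]
  have h2 := h _ h1
  rw [p.inf (fun s => (A s)ᶜ ⊔ q.val A) (fun s => A s ⊔ (q.val A)ᶜ),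
      val_sup p (fun s => (A s)ᶜ) (fun _ => q.val A), val_sup p A (fun _ => (q.val A)ᶜ),
      p.const, p.const, p.compl] at h2
  have h3 : (p.val A)ᶜ ⊔ q.val A = ⊤ := top_le_iff.1 (h2 ▸ inf_le_left)
  have h4 : p.val A ⊔ (q.val A)ᶜ = ⊤ := top_le_iff.1 (h2 ▸ inf_le_right)
  apply le_antisymm
  · have := codisjoint_iff_compl_le_right.1 (codisjoint_iff.2 h3)
    rwa [compl_compl] at this
  · rw [← compl_le_compl_iff_le]
    exact codisjoint_iff_compl_le_right.1 (codisjoint_iff.2 h4)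

end basics

section exist

variable {S : Type v} {B : Type u} [CompleteBooleanAlgebra B]

/-- finite infima have full supremum -/
def Good (U : Set (S → B)) : Prop :=
  ∀ F : Finset (S → B), (↑F : Set (S → B)) ⊆ U → ∀ b : B, b ≠ ⊥ → ∃ s, b ⊓ (F.inf id) s ≠ ⊥

theorem good_sUnion (c : Set (Set (S → B))) (hc : IsChain (· ⊆ ·) c) (hne : c.Nonempty)
    (h : ∀ U ∈ c, Good U) : Good (⋃₀ c) := by
  intro F hF
  obtain ⟨U, hU, hFU⟩ := DirectedOn.exists_mem_subset_of_finset_subset_biUnion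
    (f := fun x : Set (S → B) => x) hne hc.directedOn (s := F) (by
      simpa [Set.sUnion_eq_biUnion] using hF)
  exact h U hU F hFU

theorem exists_max (D : Set (S → B)) (h : Good D) :
    ∃ U, D ⊆ U ∧ Good U ∧ ∀ A : S → B, (∀ F : Finset (S → B), (↑F : Set (S → B)) ⊆ U →
      ∀ b : B, b ≠ ⊥ → ∃ s, b ⊓ ((F.inf id) s ⊓ A s) ≠ ⊥) → A ∈ U := by
  classical
  obtain ⟨U, hDU, hU⟩ := zorn_subset_nonempty {U : Set (S → B) | Good U}
    (fun c hc hch hne => ⟨⋃₀ c, good_sUnion c hch hne hc, fun s hs => Set.subset_sUnion_of_mem hs⟩)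
    D h
  refine ⟨U, hDU, hU.prop, fun A hA => ?_⟩
  have h1 : Good (insert A U) := by
    intro F hF b hb
    have h2 : (↑(F.erase A) : Set (S → B)) ⊆ U := by
      intro x hx
      rw [Finset.coe_erase] at hx
      rcases hF hx.1 with h3 | h3
      · exact absurd h3 hx.2
      · exact h3
    obtain ⟨s, hs⟩ := hA _ h2 b hb
    refine ⟨s, fun h4 => hs ?_⟩
    rw [eq_bot_iff, ← h4]
    apply inf_le_inf_left
    have h5 : (insert A (F.erase A)).inf id ≤ F.inf id :=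
      Finset.inf_mono (by intro x hx; by_cases hxA : x = A <;> simp [hxA, hx])
    have h6 := h5 s
    rw [Finset.inf_insert] at h6
    rw [inf_comm]
    exact h6
  exact hU.le_of_ge h1 (Set.subset_insert A U) (Set.mem_insert A U)

/-- a maximal good set is a filter of proper functions -/
structure MaxGood (U : Set (S → B)) : Prop where
  proper : ∀ A ∈ U, ∀ b : B, b ≠ ⊥ → ∃ s, b ⊓ A s ≠ ⊥
  inf : ∀ A ∈ U, ∀ A' ∈ U, (fun s => A s ⊓ A' s) ∈ U
  up : ∀ A ∈ U, ∀ A' : S → B, (∀ s, A s ≤ A' s) → A' ∈ U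
  top : (fun _ => ⊤) ∈ U
  max : ∀ A : S → B, A ∉ U → ∃ C ∈ U, ∃ d : B, d ≠ ⊥ ∧ ∀ s, d ⊓ (C s ⊓ A s) = ⊥

theorem exists_maxGood (D : Set (S → B)) (h : Good D) : ∃ U, D ⊆ U ∧ MaxGood U := by
  classical
  obtain ⟨U, hDU, hU, hmax⟩ := exists_max D h
  have hfin : ∀ F : Finset (S → B), (↑F : Set (S → B)) ⊆ U → ∀ A : S → B, F.inf id ≤ A → A ∈ U := by
    intro F hF A hA
    apply hmax
    intro G hG b hb
    obtain ⟨s, hs⟩ := hU (G ∪ F) (by rw [Finset.coe_union]; exact Set.union_subset hG hF) b hb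
    refine ⟨s, fun h4 => hs ?_⟩
    rw [eq_bot_iff, ← h4]
    apply inf_le_inf_left
    rw [Finset.inf_union]
    exact inf_le_inf_left _ (hA s)
  refine ⟨U, hDU, ?_, ?_, ?_, ?_, ?_⟩
  · intro A hA b hb
    have := hU {A} (by simpa using hA) b hb
    simpa using this
  · intro A hA A' hA'
    apply hfin {A, A'} (by
      intro x hx
      simp only [Finset.coe_insert, Finset.coe_singleton, Set.mem_insert_iff,
        Set.mem_singleton_iff] at hx
      rcases hx with rfl | rfl <;> assumption)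
    rw [Finset.inf_insert, Finset.inf_singleton]
    exact le_refl _
  · intro A hA A' hAA'
    apply hfin {A} (by simpa using hA)
    rw [Finset.inf_singleton]
    exact hAA'
  · apply hfin ∅ (by simp)
    intro s
    exact le_top
  · intro A hA
    by_contra hcon
    push Not at hcon
    apply hA
    apply hmax
    intro F hF b hb
    by_contra hcon2
    push Not at hcon2
    obtain ⟨s, hs⟩ := hcon (F.inf id) (hfin F hF _ le_rfl) b hb
    exact hs (hcon2 s)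

/-- the Boolean value of `A` -/
noncomputable def pv (U : Set (S → B)) (A : S → B) : B := sSup {b | (fun s => bᶜ ⊔ A s) ∈ U}

theorem pv_le {U : Set (S → B)} {A : S → B} {b : B} (h : (fun s => bᶜ ⊔ A s) ∈ U) :
    b ≤ pv U A := le_sSup h

theorem pv_mem {U : Set (S → B)} (hU : MaxGood U) (A : S → B) :
    (fun s => (pv U A)ᶜ ⊔ A s) ∈ U := by
  by_contra hcon
  obtain ⟨C, hC, d, hd, hdC⟩ := hU.max _ hcon
  -- d ≤ pv U A
  have h1 : d ≤ pv U A := by
    by_contra h2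
    have h3 : d ⊓ (pv U A)ᶜ ≠ ⊥ := by
      intro h4
      exact h2 (by rwa [← sdiff_eq, sdiff_eq_bot_iff] at h4)
    obtain ⟨s, hs⟩ := hU.proper C hC _ h3
    apply hs
    rw [eq_bot_iff, ← hdC s, inf_assoc, inf_comm ((pv U A)ᶜ) (C s)]
    exact inf_le_inf_left _ (inf_le_inf_left _ le_sup_left)
  obtain ⟨b, hb, hdb⟩ : ∃ b, (fun s => bᶜ ⊔ A s) ∈ U ∧ d ⊓ b ≠ ⊥ := by
    by_contra h2
    push Not at h2
    apply hd
    rw [← inf_eq_left.2 h1, pv, inf_sSup_eq, eq_bot_iff]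
    apply iSup₂_le
    intro b hb
    exact (h2 b hb).le
  obtain ⟨s, hs⟩ := hU.proper _ (hU.inf _ hC _ hb) _ hdb
  apply hs
  rw [eq_bot_iff, ← hdC s]
  refine le_inf (inf_le_left.trans inf_le_left) (le_inf (inf_le_right.trans inf_le_left) ?_)
  have h5 : d ⊓ b ⊓ (C s ⊓ (bᶜ ⊔ A s)) ≤ b ⊓ (bᶜ ⊔ A s) :=
    inf_le_inf inf_le_right inf_le_right
  refine h5.trans ?_
  rw [inf_sup_left, inf_compl_eq_bot, bot_sup_eq]
  exact inf_le_right.trans le_sup_right

theorem pv_sup_compl {U : Set (S → B)} (hU : MaxGood U) (A : S → B) :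
    pv U A ⊔ pv U (fun s => (A s)ᶜ) = ⊤ := by
  by_contra hcon
  set d : B := (pv U A ⊔ pv U (fun s => (A s)ᶜ))ᶜ with hd
  have hd0 : d ≠ ⊥ := by
    intro h
    exact hcon (by rwa [hd, compl_eq_bot] at h)
  have h1 : (fun s => dᶜ ⊔ A s) ∉ U := by
    intro h
    have h2 := pv_le h
    apply hd0
    rw [eq_bot_iff]
    have h3 : d ⊓ (pv U A ⊔ pv U (fun s => (A s)ᶜ)) = ⊥ := by
      rw [hd, compl_inf_eq_bot]
    rw [← h3]
    exact le_inf le_rfl (h2.trans le_sup_left)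
  obtain ⟨C, hC, d1, hd1, hd1C⟩ := hU.max _ h1
  have h2 : d1 ≤ d := by
    by_contra h2
    have h3 : d1 ⊓ dᶜ ≠ ⊥ := by
      intro h4
      exact h2 (by rwa [← sdiff_eq, sdiff_eq_bot_iff] at h4)
    obtain ⟨s, hs⟩ := hU.proper C hC _ h3
    apply hs
    rw [eq_bot_iff, ← hd1C s, inf_assoc, inf_comm (dᶜ) (C s)]
    exact inf_le_inf_left _ (inf_le_inf_left _ le_sup_left)
  have h3 : (fun s => d1ᶜ ⊔ (A s)ᶜ) ∈ U := by
    apply hU.up C hC
    intro s
    have h4 : C s ⊓ (d1 ⊓ A s) = ⊥ := by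
      rw [eq_bot_iff, ← hd1C s]
      refine le_inf (inf_le_right.trans inf_le_left) (le_inf inf_le_left ?_)
      exact inf_le_right.trans (inf_le_right.trans le_sup_right)
    have h5 := le_compl_iff_disjoint_right.2 (disjoint_iff.2 h4)
    rwa [compl_inf] at h5
  have h4 := pv_le h3
  apply hd1
  rw [eq_bot_iff]
  have h5 : d ⊓ (pv U A ⊔ pv U (fun s => (A s)ᶜ)) = ⊥ := by
    rw [hd, compl_inf_eq_bot]
  rw [← h5]
  exact le_inf h2 (h4.trans le_sup_right)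

theorem pv_const_top {U : Set (S → B)} (hU : MaxGood U) {e : B} (h : (fun _ : S => eᶜ) ∈ U) :
    e = ⊥ := by
  by_contra he
  obtain ⟨s, hs⟩ := hU.proper _ h e he
  exact hs (inf_compl_eq_bot)

theorem pv_inf_compl {U : Set (S → B)} (hU : MaxGood U) (A : S → B) :
    pv U A ⊓ pv U (fun s => (A s)ᶜ) = ⊥ := by
  apply pv_const_top hU
  apply hU.up _ (hU.inf _ (pv_mem hU A) _ (pv_mem hU (fun s => (A s)ᶜ)))
  intro s
  rw [compl_inf]
  have h : ((pv U A)ᶜ ⊔ A s) ⊓ ((pv U fun s => (A s)ᶜ)ᶜ ⊔ (A s)ᶜ) ≤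
      (pv U A)ᶜ ⊔ (pv U fun s => (A s)ᶜ)ᶜ ⊔ (A s ⊓ (A s)ᶜ) := by
    rw [sup_inf_left]
    apply inf_le_inf
    · exact sup_le (le_sup_left.trans le_sup_left) le_sup_right
    · exact sup_le (le_sup_right.trans le_sup_left) le_sup_right
  rwa [inf_compl_eq_bot, sup_bot_eq] at h

theorem pv_mono {U : Set (S → B)} (hU : MaxGood U) {A A' : S → B} (h : ∀ s, A s ≤ A' s) :
    pv U A ≤ pv U A' :=
  pv_le (hU.up _ (pv_mem hU A) _ fun s => sup_le_sup_left (h s) _)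

theorem pv_inf {U : Set (S → B)} (hU : MaxGood U) (A A' : S → B) :
    pv U (fun s => A s ⊓ A' s) = pv U A ⊓ pv U A' := by
  apply le_antisymm
  · exact le_inf (pv_mono hU fun s => inf_le_left) (pv_mono hU fun s => inf_le_right)
  · apply pv_le
    apply hU.up _ (hU.inf _ (pv_mem hU A) _ (pv_mem hU A'))
    intro s
    rw [compl_inf, sup_inf_left]
    apply inf_le_inf
    · exact sup_le_sup_right le_sup_left _
    · exact sup_le_sup_right le_sup_right _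

theorem pv_compl {U : Set (S → B)} (hU : MaxGood U) (A : S → B) :
    pv U (fun s => (A s)ᶜ) = (pv U A)ᶜ := by
  have h1 := pv_sup_compl hU A
  have h2 := pv_inf_compl hU A
  exact IsCompl.eq_compl ⟨disjoint_iff.2 (by rw [inf_comm]; exact h2),
    codisjoint_iff.2 (by rw [sup_comm]; exact h1)⟩

theorem pv_const {U : Set (S → B)} (hU : MaxGood U) (b : B) : pv U (fun _ => b) = b := by
  have h : ∀ b : B, b ≤ pv U (fun _ => b) := by
    intro b
    apply pv_le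
    apply hU.up _ hU.top
    intro s
    rw [compl_sup_eq_top]
  apply le_antisymm _ (h b)
  have h1 := h bᶜ
  rw [pv_compl hU] at h1
  exact compl_le_compl_iff_le.1 h1

/-- the `B`-valued ultrafilter of a maximal good set -/
noncomputable def ofMax (U : Set (S → B)) (hU : MaxGood U) : BU S B where
  val := pv U
  const := pv_const hU
  inf := pv_inf hU
  compl := pv_compl hU

end exist

/-- existence of `B`-valued ultrafilters -/
theorem vc_nonempty {S : Type v} {B : Type u} [CompleteBooleanAlgebra B] (D : Set (S → B))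
    (h : ∀ F : Finset (S → B), (↑F : Set (S → B)) ⊆ D → ∀ b : B, b ≠ ⊥ →
      ∃ s, b ⊓ (F.inf id) s ≠ ⊥) : (VC D).Nonempty := by
  obtain ⟨U, hDU, hU⟩ := exists_maxGood D h
  refine ⟨ofMax U hU, fun A hA => top_le_iff.1 (pv_le ?_)⟩
  apply hU.up _ (hDU hA)
  intro s
  exact le_sup_right

/-- existence, for families closed under infima -/
theorem vc_nonempty' {S : Type v} {B : Type u} [CompleteBooleanAlgebra B] (D : Set (S → B))
    (htop : (fun _ => ⊤) ∈ D) (hinf : ∀ A ∈ D, ∀ A' ∈ D, (fun s => A s ⊓ A' s) ∈ D)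
    (h : ∀ A ∈ D, ∀ b : B, (∀ s, b ⊓ A s = ⊥) → b = ⊥) : (VC D).Nonempty := by
  apply vc_nonempty D
  intro F hF b hb
  have h1 : F.inf id ∈ D := by
    refine Finset.inf_induction (p := fun A => A ∈ D) htop (fun A hA A' hA' => hinf A hA A' hA') ?_
    intro A hA
    exact hF hA
  by_contra hcon
  push Not at hcon
  exact hb (h _ h1 b hcon)

section closed

variable {S : Type v} {B : Type u} [CompleteBooleanAlgebra B]

/-- all large functions of a set of ultrafilters -/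
def Lg (T : Set (BU S B)) : Set (S → B) := {A | ∀ p ∈ T, p.val A = ⊤}

theorem subset_vc_lg (T : Set (BU S B)) : T ⊆ VC (Lg T) := fun _ hp _ hA => hA _ hp

theorem vc_lg {T : Set (BU S B)} (hT : IsVC T) : VC (Lg T) = T := by
  obtain ⟨D, rfl⟩ := hT
  apply Set.Subset.antisymm _ (subset_vc_lg _)
  intro p hp A hA
  exact hp A fun q hq => hq A hA

theorem lg_anti {T T' : Set (BU S B)} (h : T ⊆ T') : Lg T' ⊆ Lg T :=
  fun _ hA p hp => hA p (h hp)

theorem lg_top (T : Set (BU S B)) : (fun _ => ⊤) ∈ Lg T := fun p _ => p.const ⊤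

theorem lg_inf (T : Set (BU S B)) : ∀ A ∈ Lg T, ∀ A' ∈ Lg T, (fun s => A s ⊓ A' s) ∈ Lg T := by
  intro A hA A' hA' p hp
  rw [p.inf, hA p hp, hA' p hp, inf_top_eq]

theorem lg_proper {T : Set (BU S B)} (hT : T.Nonempty) :
    ∀ A ∈ Lg T, ∀ b : B, (∀ s, b ⊓ A s = ⊥) → b = ⊥ := by
  intro A hA b hb
  obtain ⟨p, hp⟩ := hT
  have h1 : p.val (fun s => b ⊓ A s) = b ⊓ p.val A := by
    rw [p.inf (fun _ => b) A, p.const]
  rw [hA p hp, inf_top_eq] at h1
  have h2 : (fun s => b ⊓ A s) = fun _ => ⊥ := by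
    funext s
    exact hb s
  rw [h2, p.const] at h1
  exact h1.symm

theorem isVC_sInter {T : Set (Set (BU S B))} (h : ∀ t ∈ T, IsVC t) : IsVC (⋂₀ T) := by
  refine ⟨⋃ t ∈ T, Lg t, ?_⟩
  ext p
  simp only [Set.mem_sInter]
  constructor
  · intro hp A hA
    simp only [Set.mem_iUnion] at hA
    obtain ⟨t, ht, hA⟩ := hA
    exact hA p (hp t ht)
  · intro hp t ht
    rw [← vc_lg (h t ht)]
    intro A hA
    exact hp A (by simp only [Set.mem_iUnion]; exact ⟨t, ht, hA⟩)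

theorem isVC_inter {T T' : Set (BU S B)} (h : IsVC T) (h' : IsVC T') : IsVC (T ∩ T') := by
  have := isVC_sInter (T := {T, T'}) (by
    intro t ht
    rcases ht with rfl | rfl <;> assumption)
  rwa [Set.sInter_pair] at this

/-- compactness for chains -/
theorem chain_nonempty {T : Set (Set (BU S B))} (hne : T.Nonempty)
    (h : ∀ t ∈ T, IsVC t) (hn : ∀ t ∈ T, t.Nonempty) (hc : IsChain (· ⊆ ·) T) :
    (⋂₀ T).Nonempty := by
  have h1 : (VC (⋃ t ∈ T, Lg t)).Nonempty := by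
    apply vc_nonempty'
    · obtain ⟨t, ht⟩ := hne
      simp only [Set.mem_iUnion]
      exact ⟨t, ht, lg_top t⟩
    · intro A hA A' hA'
      simp only [Set.mem_iUnion] at hA hA' ⊢
      obtain ⟨t, ht, hA⟩ := hA
      obtain ⟨t', ht', hA'⟩ := hA'
      rcases hc.total ht ht' with h2 | h2
      · exact ⟨t, ht, lg_inf t A hA A' (lg_anti h2 hA')⟩
      · exact ⟨t', ht', lg_inf t' A (lg_anti h2 hA) A' hA'⟩
    · intro A hA
      simp only [Set.mem_iUnion] at hA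
      obtain ⟨t, ht, hA⟩ := hA
      exact lg_proper (hn t ht) A hA
  obtain ⟨p, hp⟩ := h1
  refine ⟨p, fun t ht => ?_⟩
  rw [← vc_lg (h t ht)]
  intro A hA
  exact hp A (by simp only [Set.mem_iUnion]; exact ⟨t, ht, hA⟩)

/-- minimal elements below a nonempty closed set with a property stable under
intersections of chains -/
theorem exists_minimal (P : Set (BU S B) → Prop)
    (hP : ∀ T : Set (Set (BU S B)), (∀ t ∈ T, P t) → P (⋂₀ T))
    (T : Set (BU S B)) (hT : IsVC T) (hTn : T.Nonempty) (hTP : P T) :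
    ∃ M, M ⊆ T ∧ IsVC M ∧ M.Nonempty ∧ P M ∧
      ∀ M', M' ⊆ M → IsVC M' → M'.Nonempty → P M' → M' = M := by
  obtain ⟨M, hMT, hM⟩ := zorn_superset_nonempty
    {t : Set (BU S B) | IsVC t ∧ t.Nonempty ∧ P t}
    (fun c hc hch hne => ⟨⋂₀ c,
      ⟨isVC_sInter fun t ht => (hc ht).1,
        chain_nonempty hne (fun t ht => (hc ht).1) (fun t ht => (hc ht).2.1) hch,
        hP c fun t ht => (hc ht).2.2⟩, fun s hs => Set.sInter_subset_of_mem hs⟩)
    T ⟨hT, hTn, hTP⟩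
  refine ⟨M, hMT, hM.prop.1, hM.prop.2.1, hM.prop.2.2, fun M' h1 h2 h3 h4 => ?_⟩
  exact Set.Subset.antisymm h1 (hM.le_of_le ⟨h2, h3, h4⟩ h1)

end closed

section mul

variable {S : Type v} {B : Type u} [CompleteBooleanAlgebra B] [Semigroup S]

theorem isVC_image {T : Set (BU S B)} (hT : IsVC T) (p : BU S B) :
    IsVC {y | ∃ x ∈ T, x * p = y} := by
  refine ⟨Lg {y | ∃ x ∈ T, x * p = y}, ?_⟩
  apply Set.Subset.antisymm (subset_vc_lg _)
  intro y hy
  -- the conditions on `x`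
  have h1 : (VC {C : S → B | ∃ D ∈ Lg T, ∃ A : S → B, y.val A = ⊤ ∧
      C = fun s => D s ⊓ p.val fun t => A (s * t)}).Nonempty := by
    apply vc_nonempty'
    · refine ⟨fun _ => ⊤, lg_top T, fun _ => ⊤, y.const ⊤, ?_⟩
      funext s
      rw [p.const, inf_top_eq]
    · rintro C ⟨D, hD, A, hA, rfl⟩ C' ⟨D', hD', A', hA', rfl⟩
      refine ⟨fun s => D s ⊓ D' s, lg_inf T D hD D' hD', fun s => A s ⊓ A' s, ?_, ?_⟩
      · rw [y.inf, hA, hA', inf_top_eq]
      · funext s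
        rw [p.inf (fun t => A (s * t)) (fun t => A' (s * t))]
        exact inf_inf_inf_comm _ _ _ _
    · rintro C ⟨D, hD, A, hA, rfl⟩ b hb
      have h2 : (fun s => bᶜ ⊔ (A s)ᶜ) ∈ Lg {y | ∃ x ∈ T, x * p = y} := by
        rintro z ⟨x, hx, rfl⟩
        rw [val_sup (x * p) (fun _ => bᶜ) (fun s => (A s)ᶜ), BU.const, BU.compl, BU.mul_val]
        have h3 : x.val (fun s => b ⊓ (D s ⊓ p.val fun t => A (s * t))) =
            b ⊓ (x.val D ⊓ x.val fun s => p.val fun t => A (s * t)) := by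
          rw [x.inf (fun _ => b) (fun s => D s ⊓ p.val fun t => A (s * t)), x.const, x.inf D]
        have h4 : (fun s => b ⊓ (D s ⊓ p.val fun t => A (s * t))) = fun _ => ⊥ := by
          funext s
          exact hb s
        rw [h4, x.const, hD x hx, top_inf_eq] at h3
        rw [← compl_inf, ← h3, compl_bot]
      have h3 := hy _ h2
      rw [val_sup y (fun _ => bᶜ) (fun s => (A s)ᶜ), y.const, y.compl, hA, compl_top,
        sup_bot_eq, compl_eq_top] at h3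
      exact h3
  obtain ⟨x, hx⟩ := h1
  refine ⟨x, ?_, ?_⟩
  · rw [← vc_lg hT]
    intro D hD
    have := hx _ ⟨D, hD, fun _ => ⊤, y.const ⊤, rfl⟩
    rw [x.inf D] at this
    exact top_le_iff.1 (this ▸ inf_le_left)
  · apply eq_of_top
    intro A hA
    have := hx _ ⟨fun _ => ⊤, lg_top T, A, hA, rfl⟩
    rw [x.inf (fun _ => ⊤)] at this
    exact top_le_iff.1 (this ▸ inf_le_right)

theorem isVC_fix (p : BU S B) : IsVC {x | x * p = p} := by
  refine ⟨{C | ∃ A : S → B, p.val A = ⊤ ∧ C = fun s => p.val fun t => A (s * t)}, ?_⟩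
  ext x
  constructor
  · rintro hx C ⟨A, hA, rfl⟩
    have h1 : (x * p).val A = ⊤ := by rw [hx, hA]
    exact h1
  · intro hx
    apply eq_of_top
    intro A hA
    exact hx _ ⟨A, hA, rfl⟩

/-- Ellis: closed subsemigroups contain idempotents -/
theorem exists_idem {T : Set (BU S B)} (hT : IsVC T) (hTn : T.Nonempty)
    (hmul : ∀ p ∈ T, ∀ q ∈ T, p * q ∈ T) : ∃ p ∈ T, p * p = p := by
  obtain ⟨M, hMT, hM, ⟨p, hp⟩, hMm, hmin⟩ := exists_minimal
    (fun t => ∀ p ∈ t, ∀ q ∈ t, p * q ∈ t)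
    (fun T h p hp q hq t ht => h t ht p (hp t ht) q (hq t ht)) T hT hTn hmul
  have h1 : {y | ∃ x ∈ M, x * p = y} = M := by
    apply hmin
    · rintro y ⟨x, hx, rfl⟩
      exact hMm x hx p hp
    · exact isVC_image hM p
    · exact ⟨p * p, p, hp, rfl⟩
    · rintro y ⟨x, hx, rfl⟩ y' ⟨x', hx', rfl⟩
      exact ⟨x * p * x', hMm _ (hMm _ hx _ hp) _ hx', by simp only [mul_assoc]⟩
  have h2 : M ∩ {x | x * p = p} = M := by
    apply hmin
    · exact Set.inter_subset_left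
    · exact isVC_inter hM (isVC_fix p)
    · have : p ∈ {y | ∃ x ∈ M, x * p = y} := by rw [h1]; exact hp
      obtain ⟨x, hx, hxp⟩ := this
      exact ⟨x, hx, hxp⟩
    · rintro x ⟨hx, hxp⟩ y ⟨hy, hyp⟩
      refine ⟨hMm x hx y hy, ?_⟩
      change x * y * p = p
      rw [mul_assoc, hyp, hxp]
  refine ⟨p, hMT hp, ?_⟩
  have : p ∈ M ∩ {x | x * p = p} := by rw [h2]; exact hp
  exact this.2

/-- minimal left ideals -/
theorem exists_minLeft (S0 : Set (BU S B)) (h0 : IsVC S0) (hmul : ∀ p ∈ S0, ∀ q ∈ S0, p * q ∈ S0)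
    (L : Set (BU S B)) (hL : IsVC L) (hLne : L.Nonempty) (hLs : L ⊆ S0)
    (hLl : ∀ p ∈ L, ∀ q ∈ S0, q * p ∈ L) :
    ∃ M, M ⊆ L ∧ IsVC M ∧ M.Nonempty ∧ (∀ p ∈ M, ∀ q ∈ S0, q * p ∈ M) ∧
      ∀ x ∈ M, ∀ y ∈ M, ∃ s ∈ S0, s * x = y := by
  obtain ⟨M, hML, hM, hMne, hMm, hmin⟩ := exists_minimal
    (fun t => ∀ p ∈ t, ∀ q ∈ S0, q * p ∈ t)
    (fun T h p hp q hq t ht => h t ht p (hp t ht) q hq) L hL hLne hLl
  refine ⟨M, hML, hM, hMne, hMm, fun x hx y hy => ?_⟩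
  have h1 : {y | ∃ s ∈ S0, s * x = y} = M := by
    apply hmin
    · rintro y ⟨s, hs, rfl⟩
      exact hMm x hx s hs
    · exact isVC_image h0 x
    · exact ⟨x * x, x, hLs (hML hx), rfl⟩
    · rintro y ⟨s, hs, rfl⟩ q hq
      exact ⟨q * s, hmul q hq s hs, mul_assoc _ _ _⟩
  rw [← h1] at hy
  exact hy

end mul

/-- the abstract semigroup part: a minimal right ideal generated by an idempotent of a
minimal left ideal -/
theorem minRight {X : Type w} [Semigroup X] (S0 M : Set X)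
    (hmul : ∀ p ∈ S0, ∀ q ∈ S0, p * q ∈ S0) (hMS : M ⊆ S0)
    (hMl : ∀ p ∈ M, ∀ q ∈ S0, q * p ∈ M) (hMm : ∀ x ∈ M, ∀ y ∈ M, ∃ s ∈ S0, s * x = y)
    (ε : X) (hε : ε ∈ M) (hεε : ε * ε = ε) (r : X) (hr : r ∈ S0) (hεr : ε * r = r) :
    ∃ t ∈ S0, r * t = ε := by
  have hεS := hMS hε
  -- left inverses in ε S0 ε
  have hinv : ∀ g ∈ S0, ε * g = g → g * ε = g → ∃ h ∈ S0, ε * h = h ∧ h * ε = h ∧ h * g = ε := by
    intro g hg h1 h2
    have hgM : g ∈ M := by
      rw [← h2]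
      exact hMl ε hε g hg
    obtain ⟨s, hs, hsg⟩ := hMm g hgM ε hε
    refine ⟨ε * s * ε, hmul _ (hmul _ hεS _ hs) _ hεS, ?_, ?_, ?_⟩
    · rw [← mul_assoc, ← mul_assoc, hεε]
    · rw [mul_assoc, hεε]
    · rw [mul_assoc, h1, mul_assoc, hsg, hεε]
  obtain ⟨h, hh, h1, h2, h3⟩ := hinv (r * ε) (hmul _ hr _ hεS) (by rw [← mul_assoc, hεr])
    (by rw [mul_assoc, hεε])
  obtain ⟨k, hk, h4, h5, h6⟩ := hinv h hh h1 h2
  refine ⟨ε * h, hmul _ hεS _ hh, ?_⟩
  have h7 : k = r * ε := by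
    have : k * h * (r * ε) = k * (h * (r * ε)) := mul_assoc _ _ _
    rw [h3, h6, h5] at this
    rw [← this, ← mul_assoc, hεr]
  rw [← mul_assoc, ← h7, h6]

/-- idempotents in the intersection of a minimal right and a minimal left ideal -/
theorem exists_idem_inter {X : Type w} [Semigroup X] (S0 M R : Set X)
    (hMS : M ⊆ S0) (hRS : R ⊆ S0)
    (hMl : ∀ p ∈ M, ∀ q ∈ S0, q * p ∈ M) (hMm : ∀ x ∈ M, ∀ y ∈ M, ∃ s ∈ S0, s * x = y)
    (hRl : ∀ p ∈ R, ∀ q ∈ S0, p * q ∈ R) (hRm : ∀ x ∈ R, ∀ y ∈ R, ∃ s ∈ S0, x * s = y)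
    (hMne : M.Nonempty) (hRne : R.Nonempty) : ∃ e, e ∈ R ∧ e ∈ M ∧ e * e = e := by
  obtain ⟨r, hr⟩ := hRne
  obtain ⟨m, hm⟩ := hMne
  set x := r * m with hx
  have hxR : x ∈ R := hRl r hr m (hMS hm)
  have hxM : x ∈ M := hMl m hm r (hRS hr)
  obtain ⟨s, hs, hs1⟩ := hMm (x * x) (hMl x hxM x (hMS hxM)) x hxM
  obtain ⟨t, ht, ht1⟩ := hRm (x * x) (hRl x hxR x (hMS hxM)) x hxR
  have h1 : s * x = x * t := by
    calc s * x = s * (x * x * t) := by rw [ht1]
      _ = s * (x * x) * t := by rw [mul_assoc s]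
      _ = x * t := by rw [hs1]
  refine ⟨s * x, ?_, hMl x hxM s hs, ?_⟩
  · rw [h1]
    exact hRl x hxR t ht
  · calc s * x * (s * x) = s * x * (x * t) := by rw [h1]
      _ = s * (x * x) * t := by simp only [mul_assoc]
      _ = x * t := by rw [hs1]
      _ = s * x := h1.symm

/-- the matrix of idempotents -/
theorem matrix {S : Type v} {B : Type u} [CompleteBooleanAlgebra B] [Semigroup S]
    {I : Type w} {J : Type z} [Nonempty J]
    (S0 : Set (BU S B)) (h0 : IsVC S0) (hmul : ∀ p ∈ S0, ∀ q ∈ S0, p * q ∈ S0)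
    (R : I → Set (BU S B)) (L : J → Set (BU S B))
    (hR : ∀ i, IsVC (R i)) (hRne : ∀ i, (R i).Nonempty) (hRs : ∀ i, R i ⊆ S0)
    (hRr : ∀ i, ∀ p ∈ R i, ∀ q ∈ S0, p * q ∈ R i)
    (hL : ∀ j, IsVC (L j)) (hLne : ∀ j, (L j).Nonempty) (hLs : ∀ j, L j ⊆ S0)
    (hLl : ∀ j, ∀ p ∈ L j, ∀ q ∈ S0, q * p ∈ L j) :
    ∃ e : I → J → BU S B, (∀ i j, e i j ∈ R i ∧ e i j ∈ L j) ∧
      (∀ i i' j, e i j * e i' j = e i j) ∧ (∀ i j j', e i j * e i j' = e i j') := by
  choose M hML hM hMne hMl hMm using fun j =>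
    exists_minLeft S0 h0 hmul (L j) (hL j) (hLne j) (hLs j) (hLl j)
  have hMS : ∀ j, M j ⊆ S0 := fun j => (hML j).trans (hLs j)
  obtain ⟨j0⟩ := ‹Nonempty J›
  -- idempotents in `R i ∩ M j0`
  have hε : ∀ i, ∃ ε, ε ∈ R i ∧ ε ∈ M j0 ∧ ε * ε = ε := by
    intro i
    obtain ⟨r, hr⟩ := hRne i
    obtain ⟨m, hm⟩ := hMne j0
    obtain ⟨ε, hε, hεε⟩ := exists_idem (isVC_inter (hR i) (hM j0))
      ⟨r * m, hRr i r hr m (hMS j0 hm), hMl j0 m hm r (hRs i hr)⟩
      (fun x hx y hy => ⟨hRr i x hx.1 y (hMS j0 hy.2), hMl j0 y hy.2 x (hRs i hx.1)⟩)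
    exact ⟨ε, hε.1, hε.2, hεε⟩
  choose ε hεR hεM hεε using hε
  have hεS : ∀ i, ε i ∈ S0 := fun i => hMS j0 (hεM i)
  -- the minimal right ideals
  let R' : I → Set (BU S B) := fun i => {r | r ∈ S0 ∧ ε i * r = r}
  have hR'R : ∀ i, R' i ⊆ R i := by
    rintro i r ⟨hr, h⟩
    rw [← h]
    exact hRr i _ (hεR i) r hr
  have hR'l : ∀ i, ∀ p ∈ R' i, ∀ q ∈ S0, p * q ∈ R' i := by
    rintro i p ⟨hp, h⟩ q hq
    exact ⟨hmul p hp q hq, by rw [← mul_assoc, h]⟩
  have hR'm : ∀ i, ∀ x ∈ R' i, ∀ y ∈ R' i, ∃ s ∈ S0, x * s = y := by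
    rintro i x ⟨hx, hx'⟩ y ⟨hy, hy'⟩
    obtain ⟨t, ht, hxt⟩ := minRight S0 (M j0) hmul (hMS j0) (hMl j0) (hMm j0) (ε i) (hεM i)
      (hεε i) x hx hx'
    exact ⟨t * y, hmul t ht y hy, by rw [← mul_assoc, hxt, hy']⟩
  choose e he1 he2 he3 using fun (i : I) (j : J) =>
    exists_idem_inter S0 (M j) (R' i) (hMS j) (fun r hr => hr.1) (hMl j) (hMm j) (hR'l i)
      (hR'm i) (hMne j) ⟨ε i, hεS i, hεε i⟩
  refine ⟨e, fun i j => ⟨hR'R i (he1 i j), hML j (he2 i j)⟩, fun i i' j => ?_, fun i j j' => ?_⟩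
  · obtain ⟨s, hs, h⟩ := hMm j (e i' j) (he2 i' j) (e i j) (he2 i j)
    rw [← h, mul_assoc, he3]
  · obtain ⟨s, hs, h⟩ := hR'm i (e i j) (he1 i j) (e i j') (he1 i j')
    rw [← h, ← mul_assoc, he3]

end Pool.Agent.helper60.HT
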